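import Pool.Agent.Q24.SG.Clus

/-!
# All `ℓ²`-Betti numbers vanish iff the Euler characteristic does: clusters of bad links

Let `L` be the flag complex of the finite graph `G`, a real homology manifold with the real homology of the sphere of
dimension `2 m + 1` (`HSph (2 m + 2) G`), for example a flag triangulation of that sphere. The quotients of the Davis
complex of the right-angled Coxeter group `W G` by torsion-free subgroups of finite index are then closed aspherical
homology manifolds of dimension `2 m + 2`, manifolds if `L` is a combinatorial sphere.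

The links of the vertices of `L` outside a set `B` are in the class `AR (2 m + 1)` (which contains the order complexes
of Gorenstein* posets and is closed under joins, subdivisions of edges, gluings and other operations). The links of
the vertices in `B` are arbitrary, but `B` falls into pairwise not adjacent clusters with few vertices each, for
example at most `3 m + 5` vertices.
-/

set_option autoImplicit false

namespace Pool.Agent.Results.MP_394d50_gt.ClustersOfBadLinks

open Pool.Agent.W907.SG Pool.Agent.TH652.Above Pool.Agent.Q24.SG Pool.Agent.Y132.SI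

/-- Let the flag complex of `G` be a real homology sphere of dimension `2 m + 1` and let `B` be a set of vertices such
that the links of all vertices outside `B` are in the class `AR (2 m + 1)`. Let the vertices of `B` be coloured such
that adjacent vertices have the same colour, and such that each colour class `C` in `B` satisfies
`|C| < 3 (m + 2) + |{common neighbours of T in C}|` for all cliques `T ⊆ C` with `m + 2` elements.
(1) The reduced `ℓ²`-homology of the Davis complex of `W G` vanishes in all degrees `i ≠ m + 1`.
(2) All `ℓ²`-Betti numbers vanish if and only if `χ(W G) = 0`.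
(3) `χ(W G) = 0` if and only if for each `ε > 0` there is a finite set `E` of nontrivial elements of `W G` such that
all real Betti numbers of all subgroups `H` of finite index which contain no conjugate of an element of `E` are at
most `ε [W G : H]`. -/
theorem result : ∀ (m : ℕ) (V ι : Type) [Fintype V] [LinearOrder V] (G : SimpleGraph V), HSph (2 * m + 2) G →
    ∀ (B : Set V) (c : V → ι), (∀ a ∈ B, ∀ b ∈ B, G.Adj a b → c a = c b) →
    (∀ j, ∀ T : Finset V, G.IsClique (T : Set V) → (∀ t ∈ T, t ∈ B ∧ c t = j) → T.card = m + 2 →
      {v | v ∈ B ∧ c v = j}.ncard < 3 * (m + 2) + {u | (u ∈ B ∧ c u = j) ∧ ∀ t ∈ T, G.Adj t u}.ncard) →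
    (∀ v, v ∉ B → AR (2 * m + 1) (G.induce (G.neighborSet v))) →
    (∀ i : ℕ, i ≠ m + 1 → L2Van G i) ∧
    ((∀ i : ℕ, L2Van G i) ↔ chiW G = 0) ∧
    (chiW G = 0 ↔ ∀ ε : ℝ, 0 < ε → ∃ E : Finset (W G), (1 : W G) ∉ E ∧
      ∀ H : Subgroup (W G), H.FiniteIndex → (∀ g ∈ E, ∀ x : W G, x * g * x⁻¹ ∉ H) →
        ∀ i : ℕ, (Module.finrank ℝ (HInv G H i) : ℝ) ≤ ε * H.index) := by
  intro m V ι _ _ G hS B c hadj hcl hl
  have hA : AR (2 * m + 2) G := AR_loc_clusters G B c hadj hcl hl
  have h1 : ∀ i : ℕ, i ≠ m + 1 → L2Van G i := fun i hi => singer_AR hS hA i (by omega)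
  exact ⟨h1, Pool.Agent.W907.SM.l2eul V G (m + 1) h1, chi_iff G (2 * m + 2) fun i hi => h1 i (by omega)⟩

end Pool.Agent.Results.MP_394d50_gt.ClustersOfBadLinks
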