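import Pool.Agent.Y132.SI.Free
import Pool.Agent.W907.SM.Final
import Pool.Agent.Q134.SE.Chi

/-!
# All `ℓ²`-Betti numbers vanish iff the Euler characteristic does: flag homology spheres

Let `L` be the flag complex of the finite graph `G`, and suppose that `L` is a real homology manifold
with the real homology of the `(n-1)`-sphere (`HSph n G`; for example a flag triangulation of the
`(n-1)`-sphere). The Davis complex of the right-angled Coxeter group `W G` is then a contractible
real homology `n`-manifold, a manifold if `L` is a combinatorial sphere, and its quotients by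
torsion-free subgroups of finite index are closed aspherical `n`-manifolds. The class `AQ n`
(`Pool.Agent.TH652.QDef`) contains the order complexes of the graded posets of length `n` which are
Gorenstein* over `F_2` and is closed under joins, edge subdivisions, gluings, and other operations;
for even `n = 2 m + 2` it contains every flag complex for which the vertices whose links are not in
`AQ (2 m + 1)` span a subcomplex of dimension at most `m`.

`L2Van G i`: the Davis complex has no nonzero `ℓ²` harmonic `i`-chains, i.e. the `i`-th `ℓ²`-Betti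
number vanishes. `chiW G`: the Euler characteristic of `W G`, `∑_T (-1/2)^|T|` over the cliques.
`HInv G H i`: the `H`-invariant real harmonic `i`-chains, its dimension is the `i`-th real Betti
number of `H`. `esub G s t`: the stellar subdivision of the edge `s t`.
-/

set_option autoImplicit false

namespace Pool.Agent.Results.MP_394d50_gt.HomologySpheres

open Pool.Agent.W907.SG Pool.Agent.TH652.Above Pool.Agent.Y132.SI

/-- Let the flag complex of `G` be a real homology sphere of dimension `n - 1` in the class `AQ n`.

(1) All `ℓ²`-Betti numbers of `W G` vanish if and only if `χ(W G) = 0`.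

(2) `χ(W G) = 0` if and only if the ordinary real Betti numbers grow sublinearly: for each `ε > 0`
there is a finite set `E` of nontrivial elements of `W G` such that all real Betti numbers of all
subgroups `H` of finite index which contain no conjugate of an element of `E` are at most
`ε [W G : H]`.

(3) Let `n = 2 m + 2` and let the link `K` of an edge `s t` (a homology sphere of dimension
`n - 3`) be in the class `AQ (n - 2)`. Then `χ(W (esub G s t)) = χ(W G) - χ(W K) / 4`; all
`ℓ²`-Betti numbers of `W (esub G s t)` vanish if and only if `χ(W (esub G s t)) = 0`, and this is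
the case if and only if all `ℓ²`-Betti numbers of `W G` and of `W K` vanish. -/
theorem result : ∀ (n : ℕ) (V : Type) [Fintype V] [LinearOrder V] (G : SimpleGraph V),
    HSph n G → AQ n G →
    ((∀ i : ℕ, L2Van G i) ↔ chiW G = 0) ∧
    (chiW G = 0 ↔ ∀ ε : ℝ, 0 < ε → ∃ E : Finset (W G), (1 : W G) ∉ E ∧
      ∀ H : Subgroup (W G), H.FiniteIndex → (∀ g ∈ E, ∀ x : W G, x * g * x⁻¹ ∉ H) →
        ∀ i : ℕ, (Module.finrank ℝ (HInv G H i) : ℝ) ≤ ε * H.index) ∧
    ∀ (m : ℕ) (s t : V) [Fintype ↥(G.neighborSet s ∩ G.neighborSet t)] [LinearOrder (Option V)],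
      n = 2 * m + 2 → G.Adj s t →
      HSph (2 * m) (G.induce (G.neighborSet s ∩ G.neighborSet t)) →
      AQ (2 * m) (G.induce (G.neighborSet s ∩ G.neighborSet t)) →
      chiW (esub G s t) =
        chiW G - chiW (G.induce (G.neighborSet s ∩ G.neighborSet t)) / 4 ∧
      ((∀ i : ℕ, L2Van (esub G s t) i) ↔ chiW (esub G s t) = 0) ∧
      ((∀ i : ℕ, L2Van (esub G s t) i) ↔ (∀ i : ℕ, L2Van G i) ∧
        ∀ i : ℕ, L2Van (G.induce (G.neighborSet s ∩ G.neighborSet t)) i) := by
  intro n V _ _ G hS hA
  have h0 : (∀ i : ℕ, L2Van G i) ↔ chiW G = 0 := by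
    refine Pool.Agent.W907.SM.l2eul V G (n / 2) fun i hi => ?_
    exact singer_AQ hS hA i (by omega)
  refine ⟨h0, chi_iff G n fun i hi => singer_AQ hS hA i hi, ?_⟩
  intro m s t _ _ hn hst hKS hKA
  subst hn
  have hchi := Pool.Agent.Q134.SE.chiW_esub G s t hst
  have hsub : ∀ i : ℕ, i ≠ m + 1 → L2Van (esub G s t) i := by
    intro i hi
    refine Pool.Agent.W907.SG.l2sub V G s t i hst (singer_AQ hS hA i (by omega)) fun j hj => ?_
    exact singer_AQ hKS hKA j (by omega)
  have h1 : (∀ i : ℕ, L2Van (esub G s t) i) ↔ chiW (esub G s t) = 0 :=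
    Pool.Agent.W907.SM.l2eul (Option V) (esub G s t) (m + 1) hsub
  have hK : (∀ i : ℕ, L2Van (G.induce (G.neighborSet s ∩ G.neighborSet t)) i) ↔
      chiW (G.induce (G.neighborSet s ∩ G.neighborSet t)) = 0 := by
    refine Pool.Agent.W907.SM.l2eul _ (G.induce (G.neighborSet s ∩ G.neighborSet t)) m
      fun i hi => ?_
    exact singer_AQ hKS hKA i (by omega)
  refine ⟨by rw [hchi]; ring, h1, ?_⟩
  rw [h1, h0, hK, hchi]
  have c1 : 0 ≤ (-1 : ℚ) ^ (m + 1) * chiW G :=
    charney_davis_AQ (m := m + 1) hS hA
  have c2 : 0 ≤ (-1 : ℚ) ^ m * chiW (G.induce (G.neighborSet s ∩ G.neighborSet t)) :=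
    charney_davis_AQ (m := m) hKS hKA
  constructor
  · intro h
    rcases neg_one_pow_eq_or ℚ m with e | e
    · rw [pow_succ, e] at c1
      rw [e] at c2
      constructor <;> linarith
    · rw [pow_succ, e] at c1
      rw [e] at c2
      constructor <;> linarith
  · rintro ⟨h2, h3⟩
    rw [h2, h3]
    norm_num

end Pool.Agent.Results.MP_394d50_gt.HomologySpheres
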