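import Pool.Agent.Q103.SG.Free
import Pool.Agent.Q103.SG.Cat

/-!
# Euler characteristic and `ℓ²`-Betti numbers of Poincaré duality groups acting on CAT(0) spaces

Let `G` be the fundamental group of a closed aspherical `n`-manifold `M` or, more generally, a
Poincaré duality group of dimension `n ≥ 2` with a finite free resolution (for instance the cellular
chain complex of the universal covering of a finite complex).  Suppose that `G` acts geometrically
on a proper geodesically complete CAT(0) space (of any dimension) without rank one isometries.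
Theorem: the `ℓ²`-Betti numbers `b_i` vanish for `i = 0, 1, n - 1, n` (and all `i > n`), and
`χ = ∑_(2 ≤ i ≤ n - 2) (-1)^i b_i`.  In particular, for `n ≤ 4`: `χ ≥ 0`, and `χ = 0` if and only if
all `ℓ²`-Betti numbers vanish, as conjectured by Singer; for `n = 4` we have `b_2 = χ`.
So a four-dimensional aspherical Poincaré complex with `χ < 0`, or with `χ = 0` and a nonzero
`ℓ²`-Betti number, has rank one isometries in every geometric action of its fundamental group on a
geodesically complete CAT(0) space.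

Idea of the proof.  The vanishing: the reduced first `ℓ²`-cohomology is zero since there are no
harmonic functions of finite energy (starting library `Y34.EL`); Poincaré duality over the von Neumann
algebra gives the degrees `n - 1` and `n` (see `MP_984acc_gt/RankOneOrSinger`).  The Euler
characteristic: we prove the rank-nullity formula for von Neumann dimensions, by the trace property
and strong approximation of the projection to the range of `T` by `T (T* T + ε)⁻¹ T*`.
-/

set_option autoImplicit false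

namespace Pool.Agent.Results.MP_394d50_gt.RankOneOrEulerSinger

open scoped Matrix

/-- `(c, D, ε)` is a finite free resolution of the trivial module `ℤ`: the module in degree `i` is
`ℤ[G]^(c i)` (row vectors), the boundary operators are `v ↦ v D_i`, and `c i = 0` for `i > m`. -/
structure IsFiniteFreeResolution {G : Type} [Group G] (c : ℕ → ℕ)
    (D : ∀ i, Matrix (Fin (c (i + 1))) (Fin (c i)) (MonoidAlgebra ℤ G))
    (ε : (Fin (c 0) → MonoidAlgebra ℤ G) →+ ℤ) (m : ℕ) : Prop where
  bounded : ∀ i, m < i → c i = 0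
  surjective : Function.Surjective ε
  equivariant : ∀ (g : G) (v : Fin (c 0) → MonoidAlgebra ℤ G), ε (MonoidAlgebra.of ℤ G g • v) = ε v
  exact_zero : ∀ v, ε v = 0 ↔ ∃ u, u ᵥ* D 0 = v
  exact_succ : ∀ (i : ℕ) (v : Fin (c (i + 1)) → MonoidAlgebra ℤ G),
    v ᵥ* D i = 0 ↔ ∃ u, u ᵥ* D (i + 1) = v

/-- The Euler characteristic `∑ (-1)^i c_i`. -/
def eulerCharacteristic (c : ℕ → ℕ) (m : ℕ) : ℤ := ∑ i ∈ Finset.range (m + 1), (-1) ^ i * (c i : ℤ)

/-- The Hilbert space `ℓ²(G)` (with real scalars). -/
abbrev EllTwo (G : Type) : Type := lp (fun _ : G => ℝ) 2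

/-- The Hilbert space `ℓ²(G)^k` of the `ℓ²`-cochains on `ℤ[G]^k`. -/
abbrev Cochains (G : Type) (k : ℕ) : Type := PiLp 2 (fun _ : Fin k => EllTwo G)

/-- The action of the group ring: `(r f)(x) = ∑_g r_g f(g⁻¹ x)`. -/
noncomputable def act {G : Type} [Group G] (r : MonoidAlgebra ℤ G) (f : G → ℝ) (x : G) : ℝ :=
  r.coeff.sum fun g k => (k : ℝ) * f (g⁻¹ * x)

/-- `z` is the coboundary of `y` for the boundary operator `v ↦ v D`. -/
def IsCoboundary {G : Type} [Group G] {a b : ℕ} (D : Matrix (Fin b) (Fin a) (MonoidAlgebra ℤ G))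
    (y : Cochains G a) (z : Cochains G b) : Prop :=
  ∀ (j : Fin b) (x : G), z j x = ∑ k, act (D j k) (y k) x

/-- The harmonic `ℓ²`-cochains in degree `i` (a closed subspace isomorphic to the reduced
`ℓ²`-(co)homology): the coboundary of `u` is zero, and `u` is orthogonal to all coboundaries. -/
def Harmonic {G : Type} [Group G] (c : ℕ → ℕ)
    (D : ∀ i, Matrix (Fin (c (i + 1))) (Fin (c i)) (MonoidAlgebra ℤ G)) :
    ∀ i, Set (Cochains G (c i))
  | 0 => {u | IsCoboundary (D 0) u 0}
  | (i + 1) => {u | IsCoboundary (D (i + 1)) u 0 ∧ ∀ y z, IsCoboundary (D i) y z → inner ℝ z u = 0}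

open scoped Classical in
/-- The von Neumann dimension of the closed linear span `W'` of `W ⊆ ℓ²(G)^k`:
`∑_j ⟨P e_j, e_j⟩`, where `P` is the orthogonal projection to `W'` and `e_j` is the unit vector at the
identity element in the `j`-th component. -/
noncomputable def vonNeumannDim {G : Type} [Group G] {k : ℕ} (W : Set (Cochains G k)) : ℝ :=
  haveI : CompleteSpace (Submodule.span ℝ W).topologicalClosure :=
    (Submodule.span ℝ W).isClosed_topologicalClosure.completeSpace_coe
  ∑ j : Fin k, (Submodule.span ℝ W).topologicalClosure.starProjection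
    (WithLp.toLp 2 (Pi.single j (lp.single 2 (1 : G) (1 : ℝ)))) j 1

/-- The `i`-th `ℓ²`-Betti number. -/
noncomputable def l2Betti {G : Type} [Group G] (c : ℕ → ℕ)
    (D : ∀ i, Matrix (Fin (c (i + 1))) (Fin (c i)) (MonoidAlgebra ℤ G)) (i : ℕ) : ℝ :=
  vonNeumannDim (Harmonic c D i)

/-- The inequality of Bruhat and Tits: a complete metric space is CAT(0) if and only if any two
points `p`, `q` have a midpoint `m` such that
`d(x, m)² ≤ (d(x, p)² + d(x, q)²) / 2 - d(p, q)² / 4` for all `x`. -/
def BruhatTits (X : Type*) [MetricSpace X] : Prop := ∀ p q : X, ∃ m : X, ∀ x : X,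
  dist x m ^ 2 ≤ (dist x p ^ 2 + dist x q ^ 2) / 2 - dist p q ^ 2 / 4

/-- Every geodesic segment extends to a geodesic line: for `p ≠ q` there is a line through `p` and
`q` (in a CAT(0) space it contains the unique geodesic segment from `p` to `q`). -/
def GeodesicallyComplete (X : Type*) [MetricSpace X] : Prop :=
  ∀ p q : X, p ≠ q → ∃ c : ℝ → X, Isometry c ∧ c 0 = p ∧ c (dist p q) = q

/-- The line `c` bounds a flat half-plane: there is an isometric embedding `H` of the Euclidean
half-plane `ℝ × [0, ∞)` in `X` which extends `c`. -/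
def BoundsHalfPlane {X : Type*} [MetricSpace X] (c : ℝ → X) : Prop :=
  ∃ H : ℝ × NNReal → X,
    (∀ p q : ℝ × NNReal, dist (H p) (H q) ^ 2 = (p.1 - q.1) ^ 2 + ((p.2 : ℝ) - q.2) ^ 2) ∧
    ∀ t : ℝ, H (t, 0) = c t

/-- `g` is a rank one isometry of `X`: it translates a geodesic line `c` by `τ > 0`, and this axis
does not bound a flat half-plane. -/
def IsRankOne (X : Type*) [MetricSpace X] {G : Type*} [Group G] [MulAction G X] (g : G) : Prop :=
  ∃ (τ : ℝ) (c : ℝ → X), 0 < τ ∧ Isometry c ∧ (∀ t, g • c t = c (t + τ)) ∧ ¬ BoundsHalfPlane c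

section bridge

open Pool.Agent.Q103.SG Pool.Agent.Helper386.PD3

variable {G : Type} [Group G]

theorem la_eq_act (r : RR G) (f : L2 G) (x : G) : la r f x = act r f x := by
  induction r using rr_ind with
  | h1 g =>
    rw [la_of, act]
    change f (g⁻¹ * x) = (Finsupp.single g (1 : ℤ)).sum fun g k => (k : ℝ) * f (g⁻¹ * x)
    rw [Finsupp.sum_single_index (by simp)]
    simp
  | h2 r s hr hs =>
    rw [la_add]
    change la r f x + la s f x = _
    rw [hr, hs, act, act, act, MonoidAlgebra.coeff_add, Finsupp.sum_add_index']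
    · intro g
      simp
    · intro g k l
      push_cast
      ring
  | h3 r hr =>
    rw [map_neg]
    change -(la r f x) = _
    rw [hr, act, act, MonoidAlgebra.coeff_neg, Finsupp.sum_neg_index (by simp), Finsupp.sum,
      Finsupp.sum, ← Finset.sum_neg_distrib]
    refine Finset.sum_congr rfl fun g _ => ?_
    push_cast
    ring

theorem isCoboundary_iff {a b : ℕ} (D : Matrix (Fin b) (Fin a) (RR G)) (y : VV G a) (z : VV G b) :
    IsCoboundary D y z ↔ z = cob D y := by
  have h1 : ∀ j x, (cob D y) j x = ∑ k, act (D j k) (y k) x := by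
    intro j x
    rw [cob_apply, pr]
    have : (∑ k, la (D j k) (y k) : L2 G) x = ∑ k, (la (D j k) (y k)) x :=
      map_sum (lp.evalCLM ℝ (fun _ : G => ℝ) 2 x) _ _
    rw [this]
    exact Finset.sum_congr rfl fun k _ => la_eq_act _ _ _
  constructor
  · intro h
    apply vv_ext
    intro j
    ext x
    rw [h1]
    exact h j x
  · rintro rfl j x
    exact h1 j x

theorem harmonic_eq (c : ℕ → ℕ) (D : ∀ i, Matrix (Fin (c (i + 1))) (Fin (c i)) (RR G)) (i : ℕ) :
    Harmonic c D i = (Hm c D i : Set (VV G (c i))) := by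
  cases i with
  | zero =>
    ext u
    change IsCoboundary (D 0) u 0 ↔ cob (D 0) u = 0 ∧ _
    rw [isCoboundary_iff]
    constructor
    · intro h
      exact ⟨h.symm, fun y => inner_zero_left _⟩
    · intro h
      exact h.1.symm
  | succ i =>
    ext u
    change (IsCoboundary (D (i + 1)) u 0 ∧ ∀ y z, IsCoboundary (D i) y z → inner ℝ z u = 0) ↔
      cob (D (i + 1)) u = 0 ∧ ∀ y, inner ℝ (cob (D i) y) u = 0
    rw [isCoboundary_iff]
    constructor
    · intro h
      exact ⟨h.1.symm, fun y => h.2 y _ ((isCoboundary_iff _ _ _).2 rfl)⟩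
    · intro h
      refine ⟨h.1.symm, fun y z hz => ?_⟩
      rw [(isCoboundary_iff _ _ _).1 hz]
      exact h.2 y

theorem dim_eq {k : ℕ} (W : Submodule ℝ (VV G k)) : vonNeumannDim (W : Set (Cochains G k)) = vd W := by
  have h : vonNeumannDim (W : Set (Cochains G k)) = vd (Submodule.span ℝ (W : Set (VV G k))) := rfl
  rw [h, Submodule.span_eq W]

theorem betti_eq (c : ℕ → ℕ) (D : ∀ i, Matrix (Fin (c (i + 1))) (Fin (c i)) (RR G)) (i : ℕ) :
    l2Betti c D i = vd (Hm c D i) := by
  rw [l2Betti, harmonic_eq, dim_eq]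

end bridge

/-- **Singer's conjecture on the Euler characteristic, or a rank one isometry.**  Let `(c, D, ε)` be a
finite free resolution of `ℤ` over `ℤ[G]` and suppose that `H^i(G; ℤ[G]) = 0` for `i ≠ n` and
`H^n(G; ℤ[G]) ≅ ℤ`, where `n ≥ 2` (so `G` is a Poincaré duality group of dimension `n`).  Let `G` act
geometrically on a proper geodesically complete CAT(0) space `X`.  Then `G` contains a rank one
isometry of `X`, or
* `b_i = 0` for `i ≤ 1` and for `i ≥ n - 1`;
* `χ = ∑_(2 ≤ i ≤ n - 2) (-1)^i b_i`;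
* if `n ≤ 4` then `χ ≥ 0`, and `χ = 0` if and only if all `ℓ²`-Betti numbers `b_i` are zero;
* if `n = 4` then `b_2 = χ`. -/
theorem result {n : ℕ} (hn : 2 ≤ n) {G : Type} [Group G] {c : ℕ → ℕ}
    {D : ∀ i, Matrix (Fin (c (i + 1))) (Fin (c i)) (MonoidAlgebra ℤ G)}
    {ε : (Fin (c 0) → MonoidAlgebra ℤ G) →+ ℤ} {m : ℕ} (hD : IsFiniteFreeResolution c D ε m)
    (hcoh : ∀ i : ℕ, i ≠ n → Subsingleton (groupCohomology (Rep.leftRegular ℤ G) i))
    (htop : Nonempty (groupCohomology (Rep.leftRegular ℤ G) n ≃+ ℤ))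
    {X : Type*} [MetricSpace X] [ProperSpace X] [Nonempty X] (hX : BruhatTits X)
    (hc : GeodesicallyComplete X) [MulAction G X] [IsIsometricSMul G X]
    [ProperlyDiscontinuousSMul G X]
    (hcc : ∃ K : Set X, IsCompact K ∧ ∀ x : X, ∃ g : G, g • x ∈ K) :
    (∃ g : G, IsRankOne X g) ∨
      ((∀ i, i ≤ 1 ∨ n ≤ i + 1 → l2Betti c D i = 0) ∧
        (eulerCharacteristic c m : ℝ) = ∑ i ∈ Finset.Icc 2 (n - 2), (-1) ^ i * l2Betti c D i ∧
        (n ≤ 4 → 0 ≤ eulerCharacteristic c m ∧
          (eulerCharacteristic c m = 0 ↔ ∀ i, l2Betti c D i = 0)) ∧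
        (n = 4 → l2Betti c D 2 = eulerCharacteristic c m)) := by
  have hgeo : Pool.Agent.Y34.HB.Geo X G := ⟨inferInstance, inferInstance, inferInstance, hcc, hX⟩
  by_cases hno : ∀ g : G, ¬ Pool.Agent.Y34.EL.RankOne X g
  · right
    obtain ⟨q, rfl⟩ := Nat.exists_eq_add_of_le' hn
    have hA : Pool.Agent.Q103.SG.Approx G := fun b hb T δ hδ =>
      Pool.Agent.Q103.SG.approx_of_geo hgeo hc hno (Classical.arbitrary X) b hb T δ hδ
    have hR : Pool.Agent.Helper158.Reso (fun i => Fin (c i) → MonoidAlgebra ℤ G)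
        (Pool.Agent.Q103.SG.bd c D) ε :=
      ⟨hD.surjective, hD.equivariant, hD.exact_zero, hD.exact_succ⟩
    have h1 : ∀ i, i ≤ 1 ∨ q + 2 ≤ i + 1 → l2Betti c D i = 0 := by
      intro i hi
      rw [betti_eq]
      exact Pool.Agent.Q103.SG.vd_bot
        (Pool.Agent.Q103.SG.free_vanish c D hA hR m hD.bounded q hcoh htop i hi)
    have h2 : ∀ i, m < i → l2Betti c D i = 0 := by
      intro i hi
      rw [betti_eq]
      refine Pool.Agent.Q103.SG.vd_bot fun x _ => ?_
      apply Pool.Agent.Helper386.PD3.vv_ext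
      intro k
      have h8 := k.isLt
      have h9 := hD.bounded i hi
      omega
    have h3 : (eulerCharacteristic c m : ℝ) =
        ∑ i ∈ Finset.Icc 2 (q + 2 - 2), (-1) ^ i * l2Betti c D i := by
      have e1 : (eulerCharacteristic c m : ℝ) =
          ∑ i ∈ Finset.range (m + 1), (-1 : ℝ) ^ i * l2Betti c D i := by
        rw [eulerCharacteristic]
        push_cast
        rw [Pool.Agent.Q103.SG.free_euler c D hR m hD.bounded]
        exact Finset.sum_congr rfl fun i _ => by rw [betti_eq]
      have e2 : ∑ i ∈ Finset.range (m + 1), (-1 : ℝ) ^ i * l2Betti c D i =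
          ∑ i ∈ Finset.range (m + 1) ∪ Finset.Icc 2 (q + 2 - 2), (-1 : ℝ) ^ i * l2Betti c D i := by
        refine Finset.sum_subset Finset.subset_union_left fun i _ hi => ?_
        rw [h2 i (by rw [Finset.mem_range] at hi; omega), mul_zero]
      have e3 : ∑ i ∈ Finset.Icc 2 (q + 2 - 2), (-1 : ℝ) ^ i * l2Betti c D i =
          ∑ i ∈ Finset.range (m + 1) ∪ Finset.Icc 2 (q + 2 - 2), (-1 : ℝ) ^ i * l2Betti c D i := by
        refine Finset.sum_subset Finset.subset_union_right fun i _ hi => ?_
        rw [h1 i (by rw [Finset.mem_Icc] at hi; omega), mul_zero]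
      rw [e1, e2, e3]
    have h0 : ∀ i, 0 ≤ l2Betti c D i := by
      intro i
      rw [betti_eq]
      exact Pool.Agent.Q103.SG.vd_nonneg _
    have h4 : q + 2 = 4 → l2Betti c D 2 = eulerCharacteristic c m := by
      intro hq
      obtain rfl : q = 2 := by omega
      rw [h3]
      simp
    refine ⟨h1, h3, fun hq => ?_, h4⟩
    rcases Nat.lt_or_ge (q + 2) 4 with hlt | hge
    · have h5 : eulerCharacteristic c m = 0 := by
        have : Finset.Icc 2 (q + 2 - 2) = ∅ := Finset.Icc_eq_empty (by omega)
        rw [this, Finset.sum_empty] at h3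
        exact_mod_cast h3
      refine ⟨h5.ge, fun _ i => h1 i (by omega), fun _ => h5⟩
    · have hq4 : q + 2 = 4 := by omega
      have h5 := h4 hq4
      have h6 : 0 ≤ (eulerCharacteristic c m : ℝ) := by rw [← h5]; exact h0 2
      refine ⟨by exact_mod_cast h6, fun h => ?_, fun h => ?_⟩
      · intro i
        by_cases hi : i = 2
        · subst hi
          rw [h5, h]
          simp
        · exact h1 i (by omega)
      · have h7 := h 2
        rw [h5] at h7
        exact_mod_cast h7
  · left
    push Not at hno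
    obtain ⟨g, τ, c, hτ, hc, he⟩ := hno
    refine ⟨g, τ, c, hτ, hc.1, hc.2, ?_⟩
    rintro ⟨H, hH⟩
    have : H ∈ Pool.Agent.Y34.HB.HP c := hH
    rw [he] at this
    exact this

end Pool.Agent.Results.MP_394d50_gt.RankOneOrEulerSinger
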