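import Pool.Agent.Q24.SG.Num5

/-!
# The sum of the Betti numbers of reflection manifolds and the Euler characteristic, up to the bad simplices

Let the flag complex `L` of the finite graph `G` be a real homology manifold with the real homology of the sphere of
dimension `2 m + 1`. The quotients of the Davis complex of the right-angled Coxeter group `W G` by torsion-free
subgroups `H` of finite index are closed aspherical (real homology) manifolds of dimension `n = 2 m + 2`.

Singer's conjecture implies that the sum of all `ℓ²`-Betti numbers is the absolute value of the Euler characteristic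
(so that they vanish if and only if `χ = 0`). We show that this holds up to an error which depends only on the bad
simplices of `L`: those whose largest vertex, in any linear order of the vertices, lies in an arbitrary set `Q` of
exceptional vertices. The vertices outside `Q` and outside an initial segment `S` in the class `AR (2 m + 2)` have
lower links in the class `AR (2 m + 1)`. In terms of ordinary Betti numbers of the subgroups `H`: the sum of all
Betti numbers lies between `|χ(W)| [W : H]` and `(|χ(W)| + ∑_(i > m + 1) 4 c_i / 2^i + ε) [W : H]`, where `c_i` is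
the number of the bad simplices with `i` vertices.
-/

set_option autoImplicit false

namespace Pool.Agent.Results.MP_394d50_gt.SumOfBettiNumbers

open Pool.Agent.W907.SG Pool.Agent.TH652.Above Pool.Agent.Q24.SG Pool.Agent.Y132.SI

/-- the number of the cliques of `G` with `i` elements whose largest element is in `Q` -/
noncomputable def badCliques {V : Type} [LinearOrder V] (G : SimpleGraph V) (Q : Set V) (i : ℕ) : ℕ :=
  {T : Finset V | G.IsClique (T : Set V) ∧ T.card = i ∧ ∃ v ∈ T, v ∈ Q ∧ ∀ u ∈ T, u ≤ v}.ncard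

theorem pnum_eq {V : Type} [LinearOrder V] (G : SimpleGraph V) (Q : Set V) (i : ℕ) :
    pnum G Q Set.univ i = badCliques G Q i := by
  unfold pnum badCliques
  congr 1
  ext T
  exact ⟨fun h => ⟨h.1, h.2.2⟩, fun h => ⟨h.1, Set.subset_univ _, h.2⟩⟩

theorem sum_sym (m : ℕ) (b : ℕ → ℝ) (hsym : ∀ i j, i + j = 2 * m + 2 → b i = b j) :
    ∑ j ∈ Finset.range (2 * m + 3), b j = b (m + 1) + 2 * ∑ k ∈ Finset.range (m + 1), b (m + 2 + k) := by
  have h1 := alt_sum m (fun j => (-1) ^ j * b j) (by
    intro i j hij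
    have h2 : (-1 : ℝ) ^ i = (-1) ^ j := by
      rcases Nat.even_or_odd i with h | h
      · have h' : Even j := by
          rcases h with ⟨a, ha⟩
          exact ⟨m + 1 - a, by omega⟩
        rw [h.neg_one_pow, h'.neg_one_pow]
      · have h' : Odd j := by
          rcases h with ⟨a, ha⟩
          exact ⟨m - a, by omega⟩
        rw [h.neg_one_pow, h'.neg_one_pow]
    show (-1 : ℝ) ^ i * b i = (-1) ^ j * b j
    rw [h2, hsym i j hij])
  have hs : ∀ j : ℕ, (-1 : ℝ) ^ j * ((-1) ^ j * b j) = b j := by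
    intro j
    rw [← mul_assoc, ← mul_pow]
    norm_num
  have ht : ∀ k : ℕ, (-1 : ℝ) ^ (k + 1) * ((-1) ^ (m + 2 + k) * b (m + 2 + k)) = (-1) ^ (m + 1) * b (m + 2 + k) := by
    intro k
    rw [← mul_assoc, ← pow_add]
    congr 1
    have e : k + 1 + (m + 2 + k) = 2 * (k + 1) + (m + 1) := by ring
    rw [e, pow_add, pow_mul]
    norm_num
  simp only [hs, ht] at h1
  rw [← Finset.mul_sum] at h1
  have h3 : (-1 : ℝ) ^ (m + 1) * (-1) ^ (m + 1) = 1 := by
    rw [← mul_pow]; norm_num
  have h4 : (-1 : ℝ) ^ (m + 1) * ((-1) ^ (m + 1) * ∑ j ∈ Finset.range (2 * m + 3), b j) =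
      (-1 : ℝ) ^ (m + 1) * ((-1) ^ (m + 1) * b (m + 1) +
        2 * ((-1) ^ (m + 1) * ∑ k ∈ Finset.range (m + 1), b (m + 2 + k))) := by rw [h1]
  have h5 : (-1 : ℝ) ^ (m + 1) * ((-1) ^ (m + 1) * ∑ j ∈ Finset.range (2 * m + 3), b j) =
      ∑ j ∈ Finset.range (2 * m + 3), b j := by
    rw [← mul_assoc, h3, one_mul]
  rw [h5] at h4
  rw [h4]
  have h6 : (-1 : ℝ) ^ (m + 1) * ((-1) ^ (m + 1) * b (m + 1) +
      2 * ((-1) ^ (m + 1) * ∑ k ∈ Finset.range (m + 1), b (m + 2 + k))) =
      ((-1 : ℝ) ^ (m + 1) * (-1) ^ (m + 1)) * (b (m + 1) + 2 * ∑ k ∈ Finset.range (m + 1), b (m + 2 + k)) := by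
    ring
  rw [h6, h3, one_mul]

/-- Let the flag complex of `G` be a real homology manifold with the real homology of the `(2 m + 1)`-sphere. Let `S`
be an initial segment of the ordered vertex set which spans a subcomplex in the class `AR (2 m + 2)` (for example
`S = ∅`), and let `Q` be a set of vertices such that for every vertex `v` outside `S` and `Q` the full subcomplex on
the neighbours `u < v` of `v` is in the class `AR (2 m + 1)`. Let `c_i` be the number of the cliques with `i` elements
and largest element in `Q`, and `χ(W G) = ∑_T (-1/2)^|T|` over all cliques `T`. For each `ε > 0` there is a finite set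
`E` of nontrivial elements of `W G` such that for every subgroup `H` of finite index of `W G` which lies in the
commutator subgroup and contains no conjugate of an element of `E`, the sum of the real Betti numbers `b_i(H)`,
`i ≤ 2 m + 2`, is at least `|χ(W G)| [W G : H]` and at most
`(|χ(W G)| + ∑_(k ≤ m) 4 c_(m+2+k) / 2^(m+2+k) + ε) [W G : H]`. -/
theorem result : ∀ (m : ℕ) (V : Type) [Fintype V] [LinearOrder V] (G : SimpleGraph V), HSph (2 * m + 2) G →
    ∀ S Q : Set V, (∀ a ∈ S, ∀ b, b ≤ a → b ∈ S) → AR (2 * m + 2) (G.induce S) →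
    (∀ v, v ∉ S → v ∉ Q → AR (2 * m + 1) (G.induce {u | u < v ∧ G.Adj v u})) →
    ∀ ε : ℝ, 0 < ε → ∃ E : Finset (W G), (1 : W G) ∉ E ∧
      ∀ H : Subgroup (W G), H ≤ commutator (W G) → H.FiniteIndex → (∀ g ∈ E, ∀ x : W G, x * g * x⁻¹ ∉ H) →
        |(chiW G : ℝ)| * H.index ≤ ∑ i ∈ Finset.range (2 * m + 3), (Module.finrank ℝ (HInv G H i) : ℝ) ∧
        ∑ i ∈ Finset.range (2 * m + 3), (Module.finrank ℝ (HInv G H i) : ℝ) ≤
          (|(chiW G : ℝ)| + ∑ k ∈ Finset.range (m + 1), 4 * ((badCliques G Q (m + 2 + k) : ℝ) / 2 ^ (m + 2 + k)) + ε) *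
            H.index := by
  classical
  intro m V _ _ G hS S Q h1 h2 h3 ε hε
  obtain ⟨E, hE1, hE2⟩ := pay_sphere hS (hyp_AR h1 h2 h3) (ε / (2 * m + 3)) (by positivity)
  simp only [pnum_eq] at hE2
  refine ⟨E, hE1, fun H hH hfin hE => ?_⟩
  obtain ⟨h4, h5⟩ := hE2 H hH hfin hE
  have h5 := h5 trivial
  have hidx : (0 : ℝ) ≤ H.index := Nat.cast_nonneg _
  have : Finite (Quotient (QuotientGroup.rightRel H)) :=
    Finite.of_equiv _ (QuotientGroup.quotientRightRelEquivQuotientLeftRel H).symm
  let _ : Fintype (Quotient (QuotientGroup.rightRel H)) := Fintype.ofFinite _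
  have hsym : ∀ i j, i + j = 2 * m + 2 → (Module.finrank ℝ (HInv G H i) : ℝ) = Module.finrank ℝ (HInv G H j) := by
    intro i j hij
    rcases lt_trichotomy i (m + 1) with h | h | h
    · exact_mod_cast (h4 j i (by omega) (by omega)).2
    · have : j = m + 1 := by omega
      rw [h, this]
    · exact_mod_cast (h4 i j hij h).2.symm
  have hsum := sum_sym m (fun i => (Module.finrank ℝ (HInv G H i) : ℝ)) hsym
  constructor
  · have h6 := euler_sgn hS (aa G H) (sn G H hH) (aa_inv G H) (fun u v h x => aa_comm G H u v h x)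
      (sn_self G H hH) (fun u v huv x => sn_other G H hH u v huv x)
    rw [card_quot] at h6
    simp only [← finrank_HInv] at h6
    have h7 : |(chiW G : ℝ)| * H.index = |(-1 : ℝ) ^ (m + 1) * (H.index * (chiW G : ℝ))| := by
      rw [abs_mul, abs_pow, abs_neg, abs_one, one_pow, one_mul, abs_mul, abs_of_nonneg hidx, mul_comm]
    rw [h7, h6, hsum]
    refine (abs_add_le _ _).trans ?_
    rw [abs_mul, abs_two, abs_of_nonneg (Nat.cast_nonneg _)]
    refine add_le_add le_rfl (mul_le_mul_of_nonneg_left ?_ (by norm_num))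
    refine (Finset.abs_sum_le_sum_abs _ _).trans (Finset.sum_le_sum fun k _ => ?_)
    rw [abs_mul, abs_pow, abs_neg, abs_one, one_pow, one_mul, abs_of_nonneg (Nat.cast_nonneg _)]
  · rw [hsum]
    have h8 : ∑ k ∈ Finset.range (m + 1), (Module.finrank ℝ (HInv G H (m + 2 + k)) : ℝ) ≤
        ∑ k ∈ Finset.range (m + 1), ((badCliques G Q (m + 2 + k) : ℝ) / 2 ^ (m + 2 + k) + ε / (2 * m + 3)) *
          H.index := by
      refine Finset.sum_le_sum fun k hk => ?_
      rw [Finset.mem_range] at hk
      exact (h4 (m + 2 + k) (m - k) (by omega) (by omega)).1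
    have h9 : ∑ k ∈ Finset.range (m + 1), ((badCliques G Q (m + 2 + k) : ℝ) / 2 ^ (m + 2 + k) + ε / (2 * m + 3)) *
          H.index = (∑ k ∈ Finset.range (m + 1), (badCliques G Q (m + 2 + k) : ℝ) / 2 ^ (m + 2 + k) +
            (m + 1) * (ε / (2 * m + 3))) * H.index := by
      rw [← Finset.sum_mul, Finset.sum_add_distrib, Finset.sum_const, Finset.card_range, nsmul_eq_mul]
      push_cast
      ring
    have h10 : (Module.finrank ℝ (HInv G H (m + 1)) : ℝ) ≤ |(chiW G : ℝ)| * H.index +
        (∑ k ∈ Finset.range (m + 1), 2 * ((badCliques G Q (m + 2 + k) : ℝ) / 2 ^ (m + 2 + k)) +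
          ε / (2 * m + 3)) * H.index := by
      have h11 := (abs_le.1 h5).2
      have h12 : (-1) ^ (m + 1) * (chiW G : ℝ) * H.index ≤ |(chiW G : ℝ)| * H.index := by
        refine mul_le_mul_of_nonneg_right ?_ hidx
        refine (le_abs_self _).trans (le_of_eq ?_)
        rw [abs_mul, abs_pow, abs_neg, abs_one, one_pow, one_mul]
      linarith
    have h13 : ∑ k ∈ Finset.range (m + 1), 2 * ((badCliques G Q (m + 2 + k) : ℝ) / 2 ^ (m + 2 + k)) =
        2 * ∑ k ∈ Finset.range (m + 1), (badCliques G Q (m + 2 + k) : ℝ) / 2 ^ (m + 2 + k) := by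
      rw [Finset.mul_sum]
    have h14 : ∑ k ∈ Finset.range (m + 1), 4 * ((badCliques G Q (m + 2 + k) : ℝ) / 2 ^ (m + 2 + k)) =
        4 * ∑ k ∈ Finset.range (m + 1), (badCliques G Q (m + 2 + k) : ℝ) / 2 ^ (m + 2 + k) := by
      rw [Finset.mul_sum]
    have h15 : ε = (2 * m + 3) * (ε / (2 * m + 3)) := by
      field_simp
    rw [h14]
    rw [h13] at h10
    rw [h9] at h8
    set D := ∑ k ∈ Finset.range (m + 1), (badCliques G Q (m + 2 + k) : ℝ) / 2 ^ (m + 2 + k)
    set δ := ε / (2 * m + 3)
    rw [h15]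
    nlinarith

end Pool.Agent.Results.MP_394d50_gt.SumOfBettiNumbers
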